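import Mathlib

/-!
# MP_c26838_an: stable rank one does not pass from the asymptotic sequence algebra to its factors

Let `B` be the disc algebra (as a closed algebra of functions on the circle) and `χ` its
character `mean`. Renorming `B` by `|χ f| + (n + 1) ‖f - χ f‖` gives Banach algebras `A n` all of
which fail to have stable rank one, while `Asy (A n)` has stable rank one, because in the limit
the products of elements of `ker χ` vanish.
-/

open MeasureTheory AddCircle Filter Topology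
open scoped ENNReal

namespace Pool.Agent.Results.MP_c26838_an.AsyStableRank

noncomputable section

/-- The algebra `ℓ^∞(A n)` of bounded sequences, with the supremum norm. -/
def Linf (A : ℕ → Type) [∀ n, NormedCommRing (A n)] : Type := lp A ∞

instance instLinf (A : ℕ → Type) [∀ n, NormedCommRing (A n)] [∀ n, NormOneClass (A n)] :
    NormedCommRing (Linf A) :=
  lp.inftyNormedCommRing

theorem c0_zero (A : ℕ → Type) [∀ n, NormedCommRing (A n)] [∀ n, NormOneClass (A n)] :
    Tendsto (fun n => ‖(0 : Linf A).1 n‖) atTop (𝓝 0) := by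
  have : ∀ n, ‖(0 : Linf A).1 n‖ = 0 := fun n => norm_zero
  simp [this]

theorem c0_add (A : ℕ → Type) [∀ n, NormedCommRing (A n)] [∀ n, NormOneClass (A n)]
    {f g : Linf A} (hf : Tendsto (fun n => ‖f.1 n‖) atTop (𝓝 0))
    (hg : Tendsto (fun n => ‖g.1 n‖) atTop (𝓝 0)) :
    Tendsto (fun n => ‖(f + g).1 n‖) atTop (𝓝 0) := by
  have h : Tendsto (fun n => ‖f.1 n‖ + ‖g.1 n‖) atTop (𝓝 0) := by simpa using hf.add hg
  refine squeeze_zero (fun n => norm_nonneg _) (fun n => ?_) h
  exact norm_add_le (f.1 n) (g.1 n)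

theorem c0_smul (A : ℕ → Type) [∀ n, NormedCommRing (A n)] [∀ n, NormOneClass (A n)]
    (c : Linf A) {f : Linf A} (hf : Tendsto (fun n => ‖f.1 n‖) atTop (𝓝 0)) :
    Tendsto (fun n => ‖(c • f).1 n‖) atTop (𝓝 0) := by
  have h : Tendsto (fun n => ‖c‖ * ‖f.1 n‖) atTop (𝓝 0) := by
    simpa using hf.const_mul ‖c‖
  refine squeeze_zero (fun n => norm_nonneg _) (fun n => ?_) h
  refine (norm_mul_le (c.1 n) (f.1 n)).trans ?_
  exact mul_le_mul_of_nonneg_right
    (lp.norm_apply_le_norm ENNReal.top_ne_zero (show lp A ∞ from c) n) (norm_nonneg _)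

/-- The closed ideal `c₀(A n)` of `ℓ^∞(A n)`: bounded sequences whose norms tend to `0`. -/
def c0Ideal (A : ℕ → Type) [∀ n, NormedCommRing (A n)] [∀ n, NormOneClass (A n)] :
    Ideal (Linf A) where
  carrier := {f | Tendsto (fun n => ‖f.1 n‖) atTop (𝓝 0)}
  zero_mem' := c0_zero A
  add_mem' := c0_add A
  smul_mem' := c0_smul A

/-- The asymptotic sequence algebra `ℓ^∞(A n) / c₀(A n)`. -/
def Asy (A : ℕ → Type) [∀ n, NormedCommRing (A n)] [∀ n, NormOneClass (A n)] : Type :=
  Linf A ⧸ c0Ideal A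

/-- The quotient norm on the asymptotic sequence algebra. -/
instance instAsy (A : ℕ → Type) [∀ n, NormedCommRing (A n)] [∀ n, NormOneClass (A n)] :
    SeminormedCommRing (Asy A) :=
  Ideal.Quotient.semiNormedCommRing (c0Ideal A)

/-- A unital Banach algebra has stable rank one if its invertible elements are dense. -/
def StableRankOne (R : Type) [SeminormedCommRing R] : Prop :=
  Dense {x : R | IsUnit x}

/-- The disc algebra, as the closed algebra of functions on the circle generated by `z`. -/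
def B : Subalgebra ℂ C(UnitAddCircle, ℂ) :=
  (Algebra.adjoin ℂ {(fourier 1 : C(UnitAddCircle, ℂ))}).topologicalClosure

/-- The mean of a continuous function on the circle. -/
def mean (f : C(UnitAddCircle, ℂ)) : ℂ := ∫ t, f t ∂haarAddCircle

theorem integrable' (f : C(UnitAddCircle, ℂ)) : Integrable f (haarAddCircle (T := 1)) :=
  f.continuous.integrable_of_hasCompactSupport (HasCompactSupport.of_compactSpace _)

theorem mean_add (f g : C(UnitAddCircle, ℂ)) : mean (f + g) = mean f + mean g :=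
  integral_add (integrable' f) (integrable' g)

theorem mean_smul (c : ℂ) (f : C(UnitAddCircle, ℂ)) : mean (c • f) = c * mean f := by
  have : mean (c • f) = ∫ t, c * f t ∂haarAddCircle := rfl
  rw [this, integral_const_mul]; rfl

theorem mean_one : mean 1 = 1 := by
  have : mean 1 = ∫ _t : UnitAddCircle, (1 : ℂ) ∂haarAddCircle := rfl
  rw [this]; simp

theorem norm_mean_le (f : C(UnitAddCircle, ℂ)) : ‖mean f‖ ≤ ‖f‖ := by
  have h := norm_integral_le_of_norm_le_const (μ := haarAddCircle (T := 1)) (f := f)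
    (Filter.Eventually.of_forall (fun x => f.norm_coe_le_norm x))
  simpa [mean] using h

theorem continuous_mean : Continuous mean := by
  have : LipschitzWith 1 mean := by
    refine LipschitzWith.of_dist_le_mul (fun f g => ?_)
    rw [dist_eq_norm, dist_eq_norm, NNReal.coe_one, one_mul]
    have : mean f - mean g = mean (f - g) := by
      have h := mean_add (f - g) g
      rw [sub_add_cancel] at h
      rw [h]; ring
    rw [this]; exact norm_mean_le _
  exact this.continuous

theorem mean_fourier {n : ℤ} (hn : n ≠ 0) : mean (fourier n) = 0 := by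
  have h := fourierCoeff_fourier (T := 1) n
  have h2 := congrFun h 0
  rw [Pi.single_eq_of_ne (Ne.symm hn)] at h2
  simpa [fourierCoeff, mean] using h2

/-- The coordinate function `z` on the circle. -/
abbrev zz : C(UnitAddCircle, ℂ) := fourier 1

theorem zz_pow (n : ℕ) : zz ^ n = (fourier (n : ℤ) : C(UnitAddCircle, ℂ)) := by
  induction n with
  | zero => ext x; simp
  | succ n ih =>
    rw [pow_succ, ih]
    ext x
    have h := fourier_add (T := 1) (m := (n : ℤ)) (n := 1) (x := x)
    push_cast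
    rw [h]; rfl

theorem mean_aeval (p : Polynomial ℂ) : mean (Polynomial.aeval zz p) = p.coeff 0 := by
  induction p using Polynomial.induction_on' with
  | add p q hp hq => rw [map_add, mean_add, hp, hq, Polynomial.coeff_add]
  | monomial n a =>
    rw [Polynomial.aeval_monomial, zz_pow]
    have h1 : (algebraMap ℂ C(UnitAddCircle, ℂ)) a * fourier (n : ℤ)
        = a • (fourier (n : ℤ) : C(UnitAddCircle, ℂ)) := by
      ext x; rfl
    rw [h1, mean_smul]
    rcases Nat.eq_zero_or_pos n with rfl | hn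
    · have : (fourier ((0 : ℕ) : ℤ) : C(UnitAddCircle, ℂ)) = 1 := by
        rw [← zz_pow 0, pow_zero]
      rw [this, mean_one]; simp
    · rw [mean_fourier (by exact_mod_cast hn.ne'), mul_zero, Polynomial.coeff_monomial,
        if_neg hn.ne']

theorem mean_mul (f g : C(UnitAddCircle, ℂ)) (hf : f ∈ B) (hg : g ∈ B) :
    mean (f * g) = mean f * mean g := by
  set S : Set C(UnitAddCircle, ℂ) := (Algebra.adjoin ℂ {zz} : Set C(UnitAddCircle, ℂ)) with hS
  have hfg : (f, g) ∈ closure (S ×ˢ S) := by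
    rw [closure_prod_eq]
    exact ⟨hf, hg⟩
  have hcl : IsClosed {q : C(UnitAddCircle, ℂ) × C(UnitAddCircle, ℂ) |
      mean (q.1 * q.2) = mean q.1 * mean q.2} := by
    apply isClosed_eq
    · exact continuous_mean.comp (continuous_fst.mul continuous_snd)
    · exact (continuous_mean.comp continuous_fst).mul (continuous_mean.comp continuous_snd)
  refine closure_minimal ?_ hcl hfg
  rintro ⟨a, b⟩ ⟨ha, hb⟩
  simp only [hS, SetLike.mem_coe, Algebra.adjoin_singleton_eq_range_aeval,
    AlgHom.mem_range] at ha hb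
  obtain ⟨p, rfl⟩ := ha
  obtain ⟨q, rfl⟩ := hb
  change mean (Polynomial.aeval zz p * Polynomial.aeval zz q) = _
  rw [← map_mul, mean_aeval, mean_aeval, mean_aeval, Polynomial.mul_coeff_zero]

theorem zz_mem : zz ∈ B :=
  Subalgebra.le_topologicalClosure _ (Algebra.subset_adjoin rfl)

/-- No invertible element of the disc algebra is at distance less than one from `z`. -/
theorem not_unit (g : B) (hg : ‖(g : C(UnitAddCircle, ℂ)) - zz‖ < 1) : ¬ IsUnit g := by
  rintro ⟨u, rfl⟩
  obtain ⟨v, h1⟩ : ∃ v : B, (u : B) * v = 1 := ⟨_, u.mul_inv⟩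
  have huv : ((u : B) : C(UnitAddCircle, ℂ)) * (v : C(UnitAddCircle, ℂ)) = 1 := by
    have h2 := congrArg (Subtype.val) h1
    simpa using h2
  -- `h = z / g` has mean zero but positive real part
  set h : C(UnitAddCircle, ℂ) := zz * (v : C(UnitAddCircle, ℂ)) with hh
  have h0 : mean h = 0 := by
    rw [hh, mean_mul _ _ zz_mem v.2]
    have : mean zz = 0 := mean_fourier (n := 1) one_ne_zero
    rw [this, zero_mul]
  have hpos : ∀ x, 0 < (h x).re := by
    intro x
    have hz : ‖zz x‖ = 1 := by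
      rw [fourier_one]; exact Circle.norm_coe _
    have hgx : ‖((u : B) : C(UnitAddCircle, ℂ)) x - zz x‖ < 1 :=
      lt_of_le_of_lt (ContinuousMap.norm_coe_le_norm
        (((u : B) : C(UnitAddCircle, ℂ)) - zz) x) hg
    have huvx : ((u : B) : C(UnitAddCircle, ℂ)) x * (v : C(UnitAddCircle, ℂ)) x = 1 := by
      have := DFunLike.congr_fun huv x
      simpa using this
    set a := ((u : B) : C(UnitAddCircle, ℂ)) x
    set b := (v : C(UnitAddCircle, ℂ)) x
    set z := zz x
    have hzc : z * (starRingEnd ℂ) z = 1 := by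
      rw [Complex.mul_conj, Complex.normSq_eq_norm_sq, hz]; simp
    have hhx : h x = z * b := rfl
    have ha0 : a ≠ 0 := left_ne_zero_of_mul_eq_one huvx
    have hb : b = a⁻¹ := eq_inv_of_mul_eq_one_right huvx
    -- re (a conj z) > 0
    have h1 : ‖a * (starRingEnd ℂ) z - 1‖ < 1 := by
      have : a * (starRingEnd ℂ) z - 1 = (a - z) * (starRingEnd ℂ) z := by
        rw [sub_mul, hzc]
      rw [this, norm_mul, RCLike.norm_conj, hz, mul_one]
      exact hgx
    have h2 : 0 < (a * (starRingEnd ℂ) z).re := by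
      have h3 := Complex.abs_re_le_norm (a * (starRingEnd ℂ) z - 1)
      rw [Complex.sub_re, Complex.one_re] at h3
      have h4 := (abs_lt.1 (lt_of_le_of_lt h3 h1)).1
      linarith
    have h5 : h x * (a * (starRingEnd ℂ) z) = 1 := by
      rw [hhx, hb]
      calc z * a⁻¹ * (a * (starRingEnd ℂ) z) = (a⁻¹ * a) * (z * (starRingEnd ℂ) z) := by ring
        _ = 1 := by rw [hzc, inv_mul_cancel₀ ha0, one_mul]
    have h6 : h x = (a * (starRingEnd ℂ) z)⁻¹ := eq_inv_of_mul_eq_one_left h5
    rw [h6, Complex.inv_re]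
    apply div_pos h2
    rw [Complex.normSq_pos]
    intro h7
    rw [h7] at h2
    simp at h2
  have hre : (mean h).re = ∫ t, (h t).re ∂haarAddCircle := by
    have := integral_re (𝕜 := ℂ) (integrable' h)
    simpa [mean] using this.symm
  have hint : Integrable (fun t => (h t).re) (haarAddCircle (T := 1)) :=
    (integrable' h).re
  have : 0 < ∫ t, (h t).re ∂(haarAddCircle (T := 1)) := by
    rw [integral_pos_iff_support_of_nonneg (fun t => (hpos t).le) hint]
    have : Function.support (fun t => (h t).re) = Set.univ := by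
      ext t; simp [(hpos t).ne']
    rw [this]; simp
  rw [← hre, h0] at this
  simp at this

/-- The part of `f` in the kernel of `mean`. -/
def rr (f : C(UnitAddCircle, ℂ)) : C(UnitAddCircle, ℂ) :=
  f - (mean f) • (1 : C(UnitAddCircle, ℂ))

theorem rr_apply (f : C(UnitAddCircle, ℂ)) (x : UnitAddCircle) : rr f x = f x - mean f := by
  change f x - mean f * 1 = _
  rw [mul_one]

theorem rr_add (f g : C(UnitAddCircle, ℂ)) : rr (f + g) = rr f + rr g := by
  ext x
  rw [ContinuousMap.add_apply, rr_apply, rr_apply, rr_apply, mean_add, ContinuousMap.add_apply]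
  ring

theorem rr_smul (c : ℂ) (f : C(UnitAddCircle, ℂ)) : rr (c • f) = c • rr f := by
  ext x
  rw [ContinuousMap.smul_apply, rr_apply, rr_apply, mean_smul, ContinuousMap.smul_apply,
    smul_eq_mul, smul_eq_mul]
  ring

theorem mean_neg (f : C(UnitAddCircle, ℂ)) : mean (-f) = - mean f := by
  have h := mean_smul (-1 : ℂ) f
  have h2 : (-1 : ℂ) • f = -f := neg_one_smul ℂ f
  rw [h2] at h
  rw [h, neg_one_mul]

theorem rr_neg (f : C(UnitAddCircle, ℂ)) : rr (-f) = - rr f := by
  ext x
  rw [ContinuousMap.neg_apply, rr_apply, rr_apply, mean_neg, ContinuousMap.neg_apply]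
  ring

theorem mean_zero : mean 0 = 0 := by
  have : mean 0 = ∫ _t : UnitAddCircle, (0 : ℂ) ∂haarAddCircle := rfl
  rw [this]; simp

theorem rr_mul (f g : C(UnitAddCircle, ℂ)) (hf : f ∈ B) (hg : g ∈ B) :
    rr (f * g) = mean f • rr g + mean g • rr f + rr f * rr g := by
  ext x
  rw [ContinuousMap.add_apply, ContinuousMap.add_apply, ContinuousMap.mul_apply,
    ContinuousMap.smul_apply, ContinuousMap.smul_apply, rr_apply, rr_apply, rr_apply,
    mean_mul f g hf hg, ContinuousMap.mul_apply, smul_eq_mul, smul_eq_mul]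
  ring

/-- The norm `|χ f| + (n + 1) ‖f - χ f‖` on the disc algebra. -/
def nrm (n : ℕ) : RingNorm B where
  toFun f := ‖mean f‖ + ((n : ℝ) + 1) * ‖rr f‖
  map_zero' := by
    have : ((0 : B) : C(UnitAddCircle, ℂ)) = 0 := rfl
    rw [this, mean_zero]
    simp [rr, mean_zero]
  add_le' f g := by
    have e : ((f + g : B) : C(UnitAddCircle, ℂ)) = f + g := rfl
    rw [e, mean_add, rr_add]
    have h1 := norm_add_le (mean f) (mean g)
    have h2 := mul_le_mul_of_nonneg_left (norm_add_le (rr f) (rr g))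
      (by positivity : (0 : ℝ) ≤ (n : ℝ) + 1)
    linarith
  neg' f := by
    have e : ((-f : B) : C(UnitAddCircle, ℂ)) = -f := rfl
    rw [e, mean_neg, rr_neg, norm_neg, norm_neg]
  mul_le' f g := by
    have e : ((f * g : B) : C(UnitAddCircle, ℂ)) = f * g := rfl
    rw [e, mean_mul _ _ f.2 g.2, rr_mul _ _ f.2 g.2, norm_mul]
    have h1 : ‖mean f • rr g + mean g • rr f + rr f * rr g‖
        ≤ ‖mean f‖ * ‖rr g‖ + ‖mean g‖ * ‖rr f‖ + ‖rr f‖ * ‖rr g‖ := by
      refine (norm_add_le _ _).trans (add_le_add ((norm_add_le _ _).trans ?_) (norm_mul_le _ _))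
      rw [norm_smul, norm_smul]
    have hk : (1 : ℝ) ≤ (n : ℝ) + 1 := by
      have : (0 : ℝ) ≤ n := Nat.cast_nonneg n
      linarith
    set k : ℝ := (n : ℝ) + 1
    set a := ‖mean f‖
    set b := ‖mean g‖
    set c := ‖rr (f : C(UnitAddCircle, ℂ))‖ with hc
    set d := ‖rr (g : C(UnitAddCircle, ℂ))‖ with hd
    have hcd : 0 ≤ c * d := mul_nonneg (norm_nonneg _) (norm_nonneg _)
    have h2 := mul_le_mul_of_nonneg_left h1 (by linarith : (0 : ℝ) ≤ k)
    have h3 : k * (c * d) ≤ k * k * (c * d) := by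
      have : 0 ≤ k * (k - 1) * (c * d) := by
        apply mul_nonneg _ hcd
        nlinarith
      nlinarith
    nlinarith
  eq_zero_of_map_eq_zero' f h := by
    have hk : (0 : ℝ) < (n : ℝ) + 1 := by positivity
    have h1 : ‖mean f‖ = 0 := by
      have := mul_nonneg hk.le (norm_nonneg (rr f))
      have h0 := norm_nonneg (mean f)
      change ‖mean f‖ + ((n : ℝ) + 1) * ‖rr f‖ = 0 at h
      linarith
    have h2 : ‖rr (f : C(UnitAddCircle, ℂ))‖ = 0 := by
      change ‖mean f‖ + ((n : ℝ) + 1) * ‖rr f‖ = 0 at h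
      rw [h1, zero_add] at h
      rcases mul_eq_zero.1 h with h3 | h3
      · exact absurd h3 hk.ne'
      · exact h3
    have h3 := norm_eq_zero.1 h2
    have h4 := norm_eq_zero.1 h1
    apply Subtype.ext
    change (f : C(UnitAddCircle, ℂ)) = 0
    ext x
    have h5 := DFunLike.congr_fun h3 x
    rw [rr_apply, h4, sub_zero] at h5
    exact h5

/-- The disc algebra, to be normed by `nrm n`. -/
def A (_ : ℕ) : Type := B

instance (n : ℕ) : CommRing (A n) := inferInstanceAs (CommRing B)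

instance instNCR (n : ℕ) : NormedCommRing (A n) :=
  { (RingNorm.toNormedRing (R := A n) (nrm n)) with mul_comm := mul_comm }

/-- The underlying function of an element of `A n`. -/
def toC {n : ℕ} (f : A n) : C(UnitAddCircle, ℂ) := (show B from f).1

theorem norm_def {n : ℕ} (f : A n) : ‖f‖ = ‖mean (toC f)‖ + ((n : ℝ) + 1) * ‖rr (toC f)‖ := rfl

instance (n : ℕ) : Algebra ℂ (A n) := inferInstanceAs (Algebra ℂ B)

instance (n : ℕ) : NormedAlgebra ℂ (A n) where
  norm_smul_le r x := by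
    rw [norm_def, norm_def]
    have h1 : toC (r • x) = r • toC x := rfl
    rw [h1, mean_smul, rr_smul, norm_mul, norm_smul]
    apply le_of_eq; ring

instance (n : ℕ) : NormOneClass (A n) where
  norm_one := by
    rw [norm_def]
    have h1 : toC (1 : A n) = 1 := rfl
    rw [h1, mean_one, rr, mean_one]
    simp

theorem norm_toC_le {n : ℕ} (f : A n) : ‖toC f‖ ≤ ‖f‖ := by
  have h : toC f = mean (toC f) • 1 + rr (toC f) := by rw [rr]; abel
  have h1 : ‖toC f‖ ≤ ‖mean (toC f)‖ + ‖rr (toC f)‖ := by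
    calc ‖toC f‖ = ‖mean (toC f) • (1 : C(UnitAddCircle, ℂ)) + rr (toC f)‖ := by rw [← h]
      _ ≤ ‖mean (toC f) • (1 : C(UnitAddCircle, ℂ))‖ + ‖rr (toC f)‖ := norm_add_le _ _
      _ = _ := by rw [norm_smul, norm_one, mul_one]
  rw [norm_def]
  have hn : (0 : ℝ) ≤ n := Nat.cast_nonneg n
  nlinarith [norm_nonneg (rr (toC f))]

theorem norm_le_toC {n : ℕ} (f : A n) : ‖f‖ ≤ (1 + ((n : ℝ) + 1) * 2) * ‖toC f‖ := by
  have h1 : ‖rr (toC f)‖ ≤ 2 * ‖toC f‖ := by
    calc ‖rr (toC f)‖ ≤ ‖toC f‖ + ‖mean (toC f) • (1 : C(UnitAddCircle, ℂ))‖ := norm_sub_le _ _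
      _ ≤ ‖toC f‖ + ‖toC f‖ := by
        rw [norm_smul, norm_one, mul_one]
        exact add_le_add le_rfl (norm_mean_le _)
      _ = _ := by ring
  rw [norm_def]
  have hn : (0 : ℝ) ≤ n := Nat.cast_nonneg n
  have h2 := norm_mean_le (toC f)
  nlinarith [norm_nonneg (rr (toC f)), norm_nonneg (toC f)]

theorem toC_sub {n : ℕ} (f g : A n) : toC (f - g) = toC f - toC g := rfl

theorem toC_add {n : ℕ} (f g : A n) : toC (f + g) = toC f + toC g := rfl

theorem toC_mul {n : ℕ} (f g : A n) : toC (f * g) = toC f * toC g := rfl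

instance (n : ℕ) : CompleteSpace (A n) := by
  refine Metric.complete_of_cauchySeq_tendsto (fun u hu => ?_)
  have hv : CauchySeq (fun k => toC (u k)) := by
    rw [Metric.cauchySeq_iff'] at hu ⊢
    intro ε hε
    obtain ⟨N, hN⟩ := hu ε hε
    refine ⟨N, fun k hk => lt_of_le_of_lt ?_ (hN k hk)⟩
    rw [dist_eq_norm, dist_eq_norm, ← toC_sub]
    exact norm_toC_le (u k - u N)
  obtain ⟨f, hf⟩ := cauchySeq_tendsto_of_complete hv
  have hfB : f ∈ B := by
    have hcl : IsClosed (B : Set C(UnitAddCircle, ℂ)) :=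
      Subalgebra.isClosed_topologicalClosure _
    exact hcl.mem_of_tendsto hf (Filter.Eventually.of_forall (fun k => (show B from u k).2))
  let g : A n := (⟨f, hfB⟩ : B)
  refine ⟨g, ?_⟩
  rw [tendsto_iff_norm_sub_tendsto_zero] at hf ⊢
  have h := hf.const_mul (1 + ((n : ℝ) + 1) * 2)
  rw [mul_zero] at h
  exact squeeze_zero (fun k => norm_nonneg _) (fun k => norm_le_toC (u k - g)) h

theorem not_dense (n : ℕ) : ¬ StableRankOne (A n) := by
  intro h
  let z : A n := (⟨zz, zz_mem⟩ : B)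
  obtain ⟨g, hg, hgu⟩ := (Metric.dense_iff.1 h) z 1 one_pos
  have h1 : ‖toC (g - z)‖ < 1 := by
    refine lt_of_le_of_lt (norm_toC_le (g - z)) ?_
    rwa [← dist_eq_norm]
  exact not_unit (show B from g) h1 hgu

theorem mean_rr (f : C(UnitAddCircle, ℂ)) : mean (rr f) = 0 := by
  have h1 : rr f = f + (-(mean f)) • (1 : C(UnitAddCircle, ℂ)) := by
    ext x
    rw [ContinuousMap.add_apply, ContinuousMap.smul_apply, rr_apply, ContinuousMap.one_apply,
      smul_eq_mul]
    ring
  rw [h1, mean_add, mean_smul, mean_one]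
  ring

/-- The part of `f` in the kernel of `mean`, inside `A n`. -/
def xx {n : ℕ} (f : A n) : A n := f - (mean (toC f)) • (1 : A n)

theorem toC_xx {n : ℕ} (f : A n) : toC (xx f) = rr (toC f) := rfl

theorem norm_xx_le {n : ℕ} (f : A n) : ‖xx f‖ ≤ ‖f‖ := by
  rw [norm_def, norm_def, toC_xx, mean_rr]
  have h : rr (rr (toC f)) = rr (toC f) := by
    ext x
    rw [rr_apply, mean_rr, sub_zero]
  rw [h, norm_zero, zero_add]
  have := norm_nonneg (mean (toC f))
  linarith

theorem norm_sq_le {n : ℕ} (f : A n) (hf : mean (toC f) = 0) :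
    ‖f * f‖ ≤ ‖f‖ * ‖f‖ / ((n : ℝ) + 1) := by
  have hk : (0 : ℝ) < (n : ℝ) + 1 := by positivity
  have hm : mean (toC f * toC f) = 0 := by
    rw [mean_mul (toC f) (toC f) (show B from f).2 (show B from f).2, hf, mul_zero]
  have h1 : rr (toC f * toC f) = toC f * toC f := by
    ext x
    rw [rr_apply, hm, sub_zero]
  have h2 : rr (toC f) = toC f := by
    ext x
    rw [rr_apply, hf, sub_zero]
  rw [norm_def, norm_def, toC_mul, hm, h1, hf, h2, norm_zero, zero_add, zero_add, le_div_iff₀ hk]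
  have h3 := norm_mul_le (toC f) (toC f)
  have h4 := mul_le_mul_of_nonneg_left h3 (mul_nonneg hk.le hk.le)
  nlinarith

/-- In the algebras `A n` the asymptotic sequence algebra has dense invertible elements. -/
theorem asy_dense : StableRankOne (Asy A) := by
  intro q
  rw [Metric.mem_closure_iff]
  intro δ hδ
  obtain ⟨a, ha'⟩ : ∃ a : lp A ∞,
      Ideal.Quotient.mk (c0Ideal A) (show Linf A from a) = (show Linf A ⧸ c0Ideal A from q) :=
    Ideal.Quotient.mk_surjective _
  set ε : ℝ := δ / 3 with hε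
  have hε0 : 0 < ε := by positivity
  -- the modified mean values
  let m : ∀ n, ℂ := fun n => mean (toC (a n))
  let l : ∀ n, ℂ := fun n => if ε ≤ ‖m n‖ then m n else (ε : ℂ)
  have hl : ∀ n, ε ≤ ‖l n‖ := by
    intro n
    by_cases h : ε ≤ ‖m n‖
    · simp only [l, if_pos h]; exact h
    · simp only [l, if_neg h]
      rw [Complex.norm_real, Real.norm_of_nonneg hε0.le]
  have hl0 : ∀ n, l n ≠ 0 := fun n h => by
    have := hl n
    rw [h, norm_zero] at this
    linarith
  have hlm : ∀ n, ‖l n - m n‖ ≤ 2 * ε := by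
    intro n
    by_cases h : ε ≤ ‖m n‖
    · simp only [l, if_pos h, sub_self, norm_zero]; positivity
    · simp only [l, if_neg h]
      refine (norm_sub_le _ _).trans ?_
      rw [Complex.norm_real, Real.norm_of_nonneg hε0.le]
      linarith
  have hli : ∀ n, ‖(l n)⁻¹‖ ≤ ε⁻¹ := by
    intro n
    rw [norm_inv]
    exact inv_anti₀ hε0 (hl n)
  have ha : ∀ n, ‖a n‖ ≤ ‖a‖ := fun n => lp.norm_apply_le_norm ENNReal.top_ne_zero a n
  have hx : ∀ n, ‖xx (a n)‖ ≤ ‖a‖ := fun n => (norm_xx_le _).trans (ha n)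
  let b' : ∀ n, A n := fun n => (l n) • (1 : A n) + xx (a n)
  let c' : ∀ n, A n := fun n => (l n)⁻¹ • (1 : A n) - ((l n)⁻¹ * (l n)⁻¹) • xx (a n)
  have hba : ∀ n, b' n - a n = (l n - m n) • (1 : A n) := by
    intro n
    simp only [b', xx, m, sub_smul]
    abel
  have hban : ∀ n, ‖b' n - a n‖ ≤ 2 * ε := by
    intro n
    rw [hba, norm_smul, norm_one, mul_one]
    exact hlm n
  have hb : Memℓp b' ∞ := by
    refine memℓp_infty ⟨2 * ε + ‖a‖, ?_⟩
    rintro _ ⟨n, rfl⟩
    have h1 : b' n = (b' n - a n) + a n := by abel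
    calc ‖b' n‖ = ‖(b' n - a n) + a n‖ := by rw [← h1]
      _ ≤ ‖b' n - a n‖ + ‖a n‖ := norm_add_le _ _
      _ ≤ _ := add_le_add (hban n) (ha n)
  have hc : Memℓp c' ∞ := by
    refine memℓp_infty ⟨ε⁻¹ + ε⁻¹ * ε⁻¹ * ‖a‖, ?_⟩
    rintro _ ⟨n, rfl⟩
    refine (norm_sub_le _ _).trans ?_
    rw [norm_smul, norm_smul, norm_one, mul_one, norm_mul]
    refine add_le_add (hli n) ?_
    have h1 : ‖(l n)⁻¹‖ * ‖(l n)⁻¹‖ ≤ ε⁻¹ * ε⁻¹ :=
      mul_le_mul (hli n) (hli n) (norm_nonneg _) (by positivity)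
    exact mul_le_mul h1 (hx n) (norm_nonneg _) (by positivity)
  let b : Linf A := ⟨b', hb⟩
  let c : Linf A := ⟨c', hc⟩
  have hbc : ∀ n, b' n * c' n - 1 = - (((l n)⁻¹ * (l n)⁻¹) • (xx (a n) * xx (a n))) := by
    intro n
    have h1 : (algebraMap ℂ (A n)) (l n) * (algebraMap ℂ (A n)) (l n)⁻¹ = 1 := by
      rw [← map_mul, mul_inv_cancel₀ (hl0 n), map_one]
    simp only [b', c', Algebra.smul_def, map_mul, mul_one]
    linear_combination (1 - (algebraMap ℂ (A n)) (l n)⁻¹ * xx (a n)) * h1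
  have hbc1 : ∀ n, ‖b' n * c' n - 1‖ ≤ (ε⁻¹ * ε⁻¹ * (‖a‖ * ‖a‖)) * (1 / ((n : ℝ) + 1)) := by
    intro n
    rw [hbc, norm_neg, norm_smul, norm_mul]
    have h1 : ‖(l n)⁻¹‖ * ‖(l n)⁻¹‖ ≤ ε⁻¹ * ε⁻¹ :=
      mul_le_mul (hli n) (hli n) (norm_nonneg _) (by positivity)
    have hk : (0 : ℝ) < (n : ℝ) + 1 := by positivity
    have h2 : ‖xx (a n) * xx (a n)‖ ≤ (‖a‖ * ‖a‖) / ((n : ℝ) + 1) := by
      refine (norm_sq_le (xx (a n)) ?_).trans ?_
      · rw [toC_xx, mean_rr]
      · exact div_le_div_of_nonneg_right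
          (mul_le_mul (hx n) (hx n) (norm_nonneg _) (norm_nonneg _)) hk.le
    calc ‖(l n)⁻¹‖ * ‖(l n)⁻¹‖ * ‖xx (a n) * xx (a n)‖
        ≤ (ε⁻¹ * ε⁻¹) * ((‖a‖ * ‖a‖) / ((n : ℝ) + 1)) :=
          mul_le_mul h1 h2 (norm_nonneg _) (by positivity)
      _ = _ := by ring
  have hmem : b * c - 1 ∈ c0Ideal A := by
    change Tendsto (fun n => ‖(b * c - 1 : Linf A).1 n‖) atTop (𝓝 0)
    have h1 := (tendsto_one_div_add_atTop_nhds_zero_nat (𝕜 := ℝ)).const_mul
      (ε⁻¹ * ε⁻¹ * (‖a‖ * ‖a‖))
    rw [mul_zero] at h1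
    exact squeeze_zero (fun n => norm_nonneg _) (fun n => hbc1 n) h1
  have hunit : IsUnit (Ideal.Quotient.mk (c0Ideal A) b) := by
    refine IsUnit.of_mul_eq_one (Ideal.Quotient.mk (c0Ideal A) c) ?_
    rw [← map_mul, ← map_one (Ideal.Quotient.mk (c0Ideal A))]
    exact Ideal.Quotient.eq.2 hmem
  refine ⟨Ideal.Quotient.mk (c0Ideal A) b, hunit, ?_⟩
  subst ha'
  have h1 : ‖b - (show Linf A from a)‖ ≤ 2 * ε := by
    refine lp.norm_le_of_forall_le (by positivity) (fun n => ?_)
    exact hban n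
  have h2 := (Ideal.Quotient.norm_mk_le (c0Ideal A) (b - (show Linf A from a))).trans h1
  rw [dist_comm]
  change dist (Ideal.Quotient.mk (c0Ideal A) b)
    (Ideal.Quotient.mk (c0Ideal A) (show Linf A from a)) < δ
  rw [dist_eq_norm, ← map_sub]
  refine lt_of_le_of_lt h2 ?_
  rw [hε]; linarith

/-- **MP_c26838_an, Q1, answer no.** There is a sequence of unital commutative Banach algebras,
none of which has stable rank one, whose asymptotic sequence algebra has stable rank one. -/
theorem result : ∃ (A : ℕ → Type) (_ : ∀ n, NormedCommRing (A n))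
    (_ : ∀ n, NormedAlgebra ℂ (A n)) (_ : ∀ n, NormOneClass (A n)),
    (∀ n, CompleteSpace (A n)) ∧ StableRankOne (Asy A) ∧ ∀ n, ¬ StableRankOne (A n) :=
  ⟨A, inferInstance, inferInstance, inferInstance, inferInstance, asy_dense, not_dense⟩

end

end Pool.Agent.Results.MP_c26838_an.AsyStableRank
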